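import Pool.Agent.W243.TD.Stm

/-!
# TD-COEF: weighted bound for Taylor coefficients (helper337)
-/

set_option autoImplicit false

namespace Pool.Agent.W337.TD

open Polynomial Finset Module
open Pool.Agent.H301R2.TR (JG LamC LamF coef entG E1 E1_one_le)
open Pool.Agent.W243.TD

theorem coef_bound : S_coef := by
  intro a k q T H X W Y hX hW ha hXW hH
  have hY : 0 ≤ Y := by nlinarith
  have hE : 0 ≤ E1 H Y := by linarith [E1_one_le H Y hY]
  by_cases hkq : k ≤ q
  swap
  · simp only [coef, hkq, if_false, norm_zero, zero_mul]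
    positivity
  simp only [coef, hkq, if_true]
  rw [norm_div, norm_pow, Complex.norm_natCast]
  have h1 : ‖a‖ ^ (q - k) ≤ X ^ q :=
    (pow_le_pow_left₀ (norm_nonneg _) ha _).trans (pow_le_pow_right₀ hX (by omega))
  have hqk : ((q.factorial : ℕ) : ℝ) ≤ ((q - k).factorial : ℝ) * (q : ℝ) ^ k := by
    have e1 := Nat.factorial_mul_descFactorial hkq
    have e2 := Nat.descFactorial_le_pow q k
    have : q.factorial ≤ (q - k).factorial * q ^ k := by
      rw [← e1]; exact Nat.mul_le_mul_left _ e2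
    exact_mod_cast this
  have hfpos : (0 : ℝ) < ((q - k).factorial : ℝ) := by exact_mod_cast Nat.factorial_pos _
  have hqpos : (0 : ℝ) < (q.factorial : ℝ) := by exact_mod_cast Nat.factorial_pos _
  have h4 : 1 / ((q - k).factorial : ℝ) ≤ ((q : ℝ) + 1) ^ k / (q.factorial : ℝ) := by
    rw [div_le_div_iff₀ hfpos hqpos]
    have h3 : (q : ℝ) ^ k ≤ ((q : ℝ) + 1) ^ k :=
      pow_le_pow_left₀ (Nat.cast_nonneg q) (by linarith) k
    have h5 := mul_le_mul_of_nonneg_left h3 hfpos.le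
    linarith [hqk]
  have h5 : ((q : ℝ) + 1) ^ (k + T) ≤ (H.factorial : ℝ) * (3 * Real.exp q) := by
    have e1 := Real.pow_div_factorial_le_exp ((q : ℝ) + 1) (by positivity) (k + T)
    have hf : (0 : ℝ) < ((k + T).factorial : ℝ) := by exact_mod_cast Nat.factorial_pos _
    rw [div_le_iff₀ hf] at e1
    have e2 : ((k + T).factorial : ℝ) ≤ (H.factorial : ℝ) := by exact_mod_cast Nat.factorial_le hH
    have e3 : 0 < Real.exp (q : ℝ) := Real.exp_pos _
    have e4 : Real.exp ((q : ℝ) + 1) ≤ 3 * Real.exp q := by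
      rw [Real.exp_add]
      have := Real.exp_one_lt_d9
      nlinarith
    calc ((q : ℝ) + 1) ^ (k + T) ≤ Real.exp ((q : ℝ) + 1) * ((k + T).factorial : ℝ) := e1
      _ ≤ (3 * Real.exp q) * (H.factorial : ℝ) :=
          mul_le_mul e4 e2 hf.le (by positivity)
      _ = _ := by ring
  have hXW0 : 0 ≤ X * W := by positivity
  have h6 : (X * W) ^ q / (q.factorial : ℝ) ≤ (1 / 6) ^ q * Real.exp (6 * Y) := by
    have e1 := Real.pow_div_factorial_le_exp (6 * (X * W)) (by positivity) q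
    have e2 : Real.exp (6 * (X * W)) ≤ Real.exp (6 * Y) := Real.exp_le_exp.mpr (by linarith)
    have e3 : (X * W) ^ q / (q.factorial : ℝ) =
        (1 / 6) ^ q * ((6 * (X * W)) ^ q / (q.factorial : ℝ)) := by
      rw [mul_div_assoc', ← mul_pow]
      congr 2
      ring
    rw [e3]
    exact mul_le_mul_of_nonneg_left (e1.trans e2) (by positivity)
  have h7 : Real.exp (q : ℝ) * (1 / 6) ^ q ≤ (1 / 2) ^ q := by
    have e1 : Real.exp (q : ℝ) = (Real.exp 1) ^ q := by
      rw [← Real.exp_nat_mul]; simp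
    rw [e1, ← mul_pow]
    apply pow_le_pow_left₀ (by positivity)
    have := Real.exp_one_lt_d9
    linarith
  calc ‖a‖ ^ (q - k) / ((q - k).factorial : ℝ) * (((q : ℝ) + 1) ^ T * W ^ q)
      = ‖a‖ ^ (q - k) * W ^ q * ((q : ℝ) + 1) ^ T * (1 / ((q - k).factorial : ℝ)) := by
        ring
    _ ≤ X ^ q * W ^ q * ((q : ℝ) + 1) ^ T * (((q : ℝ) + 1) ^ k / (q.factorial : ℝ)) := by
        gcongr
    _ = ((q : ℝ) + 1) ^ (k + T) * ((X * W) ^ q / (q.factorial : ℝ)) := by
        rw [mul_pow, pow_add]; ring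
    _ ≤ ((H.factorial : ℝ) * (3 * Real.exp q)) * ((1 / 6) ^ q * Real.exp (6 * Y)) := by
        gcongr
    _ = 3 * E1 H Y * (Real.exp q * (1 / 6) ^ q) := by unfold E1; ring
    _ ≤ 3 * E1 H Y * (1 / 2) ^ q := by gcongr

end Pool.Agent.W337.TD
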